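import Pool.Agent.Y600.DC.Stm

/-!
# Balanced hypergraphs are bicolourable (Berge)
-/

set_option autoImplicit false

namespace Pool.Agent.P8H33.DS

open Pool.Agent.Y600.DC

/-- a closed walk of odd length gives a cycle of odd length -/
theorem odd_cycle {V : Type} (H : SimpleGraph V) {u : V} (w : H.Walk u u) (hw : Odd w.length) :
    ∃ m : ℕ, Odd m ∧ 3 ≤ m ∧ ∃ x : ZMod m → V, Function.Injective x ∧ ∀ j, H.Adj (x j) (x (j + 1)) := by
  classical
  have hex : ∃ m : ℕ, Odd m ∧ ∃ f : ℕ → V, f 0 = f m ∧ ∀ i < m, H.Adj (f i) (f (i + 1)) :=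
    ⟨w.length, hw, w.getVert, by rw [w.getVert_zero, w.getVert_length],
      fun i hi => w.adj_getVert_succ hi⟩
  set m := Nat.find hex with hm
  obtain ⟨hodd, f, hf0, hf⟩ := Nat.find_spec hex
  rw [← hm] at hodd hf0 hf
  have hmin : ∀ k, k < m → Odd k → ¬ ∃ f : ℕ → V, f 0 = f k ∧ ∀ i < k, H.Adj (f i) (f (i + 1)) :=
    fun k hk ho h => Nat.find_min hex hk ⟨ho, h⟩
  have h3 : 3 ≤ m := by
    rcases hodd with ⟨k, hk⟩
    rcases Nat.eq_zero_or_pos k with rfl | hk0
    · exfalso
      have h1 : m = 1 := by omega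
      have := hf 0 (by omega)
      rw [h1] at hf0
      rw [zero_add, ← hf0] at this
      exact H.irrefl this
    · omega
  have hinj : ∀ i j, i < j → j < m → f i ≠ f j := by
    intro i j hij hj he
    rcases Nat.even_or_odd (j - i) with hev | hod
    · -- remove the segment
      have ho : Odd (m - (j - i)) := by
        rcases hodd with ⟨a, ha⟩
        rcases hev with ⟨b, hb⟩
        exact ⟨a - b, by omega⟩
      refine hmin (m - (j - i)) (by omega) ho ⟨fun k => if k ≤ i then f k else f (k + (j - i)), ?_, ?_⟩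
      · have h1 : ¬ m - (j - i) ≤ i := by omega
        simp only [zero_le, if_true, if_neg h1]
        rw [hf0]
        congr 1
        omega
      · intro k hk
        by_cases h1 : k + 1 ≤ i
        · simp only [if_pos h1, if_pos (by omega : k ≤ i)]
          exact hf k (by omega)
        · by_cases h2 : k ≤ i
          · have hki : k = i := by omega
            subst hki
            simp only [le_refl, if_true, if_neg h1]
            rw [he]
            have := hf j hj
            convert this using 2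
            omega
          · simp only [if_neg h1, if_neg h2]
            have := hf (k + (j - i)) (by omega)
            convert this using 2
            omega
    · refine hmin (j - i) (by omega) hod ⟨fun k => f (i + k), ?_, ?_⟩
      · simp only [add_zero]
        rw [he]
        congr 1
        omega
      · intro k hk
        exact hf (i + k) (by omega)
  haveI : NeZero m := ⟨by omega⟩
  refine ⟨m, hodd, h3, fun k => f k.val, ?_, ?_⟩
  · intro a b hab
    by_contra hne
    have hv : a.val ≠ b.val := fun h => hne (ZMod.val_injective m h)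
    rcases lt_or_gt_of_ne hv with h | h
    · exact hinj _ _ h (ZMod.val_lt b) hab
    · exact hinj _ _ h (ZMod.val_lt a) hab.symm
  · intro j
    haveI : Fact (1 < m) := ⟨by omega⟩
    have h1 : (1 : ZMod m).val = 1 := ZMod.val_one m
    have hj := ZMod.val_lt j
    by_cases h : j.val + 1 < m
    · have : (j + 1).val = j.val + 1 := by
        rw [ZMod.val_add, h1, Nat.mod_eq_of_lt h]
      show H.Adj (f j.val) (f (j + 1).val)
      rw [this]
      exact hf _ hj
    · have h2 : j.val + 1 = m := by omega
      have : (j + 1).val = 0 := by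
        rw [ZMod.val_add, h1, h2, Nat.mod_self]
      show H.Adj (f j.val) (f (j + 1).val)
      have h4 := hf _ hj
      rw [h2] at h4
      rw [this, hf0]
      exact h4

/-- the graph of the traces with two elements -/
def TG {I V : Type} (R : I → V → Prop) (W : Finset V) : SimpleGraph V where
  Adj x y := x ≠ y ∧ x ∈ W ∧ y ∈ W ∧ ∃ i, ∀ z ∈ W, R i z ↔ (z = x ∨ z = y)
  symm := ⟨by
    rintro x y ⟨h1, h2, h3, i, hi⟩
    exact ⟨h1.symm, h3, h2, i, fun z hz => by rw [hi z hz, or_comm]⟩⟩
  loopless := ⟨fun x h => h.1 rfl⟩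

theorem no_odd {I V : Type} {R : I → V → Prop} (hR : RelBalanced R) (W : Finset V) {u : V}
    (w : (TG R W).Walk u u) : ¬ Odd w.length := by
  intro hw
  obtain ⟨m, hm, h3, x, hx, hadj⟩ := odd_cycle _ w hw
  choose e he using fun j => (hadj j).2.2.2
  refine hR m hm h3 e x hx fun i j => ?_
  rw [he i (x j) (hadj j).2.1]
  constructor
  · rintro (h | h)
    · exact Or.inl (hx h)
    · exact Or.inr (hx h)
  · rintro (h | h)
    · exact Or.inl (congrArg x h)
    · exact Or.inr (congrArg x h)

/-- along a walk which avoids `x`, a function that changes at every edge not containing `x` -/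
theorem parity {V : Type} {H : SimpleGraph V} {x : V} {c : V → Bool}
    (hc : ∀ u v, H.Adj u v → u ≠ x → v ≠ x → c u ≠ c v) {y z : V} (w : H.Walk y z)
    (hw : x ∉ w.support) : c y = c z ↔ Even w.length := by
  induction w with
  | nil => simp
  | @cons a b d h p ih =>
    rw [SimpleGraph.Walk.support_cons, List.mem_cons, not_or] at hw
    have hb : b ≠ x := fun hb => hw.2 (hb ▸ p.start_mem_support)
    have h1 := hc a b h (fun h => hw.1 h.symm) hb
    have h2 := ih hw.2
    rw [SimpleGraph.Walk.length_cons, Nat.even_add_one, ← h2]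
    cases hca : c a <;> cases hcb : c b <;> cases hcd : c d <;> simp_all

theorem bicol : S_BICOL := by
  classical
  intro I V R hR W
  induction hn : W.card using Nat.strong_induction_on generalizing W with
  | _ n ih =>
  subst hn
  rcases W.eq_empty_or_nonempty with rfl | ⟨r, hr⟩
  · exact ⟨fun _ => true, fun i ⟨x, hx, _⟩ => absurd hx (Finset.notMem_empty x)⟩
  set H := TG R W with hH
  -- a vertex at maximal distance from `r`
  obtain ⟨x, hx, hmax⟩ := Finset.exists_max_image (W.filter (fun y => H.Reachable r y))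
    (fun y => H.dist r y) ⟨r, Finset.mem_filter.2 ⟨hr, SimpleGraph.Reachable.refl r⟩⟩
  rw [Finset.mem_filter] at hx
  obtain ⟨hxW, hxr⟩ := hx
  obtain ⟨c, hc⟩ := ih (W.erase x).card (Finset.card_erase_lt_of_mem hxW) (W.erase x) rfl
  -- neighbours of `x` are joined to `r` by walks avoiding `x`
  have havoid : ∀ y, H.Adj x y → ∃ w : H.Walk r y, x ∉ w.support := by
    intro y hy
    have hyr : H.Reachable r y := hxr.trans hy.reachable
    obtain ⟨w, hw⟩ := hyr.exists_walk_length_eq_dist
    refine ⟨w, fun hxs => ?_⟩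
    have h1 := SimpleGraph.dist_le (w.takeUntil x hxs)
    have h2 : (w.takeUntil x hxs).length + (w.dropUntil x hxs).length = w.length := by
      rw [← SimpleGraph.Walk.length_append, SimpleGraph.Walk.take_spec]
    have h3 : (w.dropUntil x hxs).length ≠ 0 := fun h0 =>
      hy.1 (SimpleGraph.Walk.eq_of_length_eq_zero h0)
    have h4 := hmax y (Finset.mem_filter.2 ⟨hy.2.2.1, hyr⟩)
    omega
  have hcH : ∀ u v, H.Adj u v → u ≠ x → v ≠ x → c u ≠ c v := by
    rintro u v ⟨huv, hu, hv, i, hi⟩ hux hvx hcuv
    have hiu : R i u := (hi u hu).2 (Or.inl rfl)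
    have hiv : R i v := (hi v hv).2 (Or.inr rfl)
    obtain ⟨z, hz, hRz, hcz⟩ := hc i ⟨u, Finset.mem_erase.2 ⟨hux, hu⟩, v,
      Finset.mem_erase.2 ⟨hvx, hv⟩, huv, hiu, hiv⟩ (!(c u))
    rcases (hi z (Finset.mem_of_mem_erase hz)).1 hRz with rfl | rfl
    · revert hcz
      cases c z <;> decide
    · rw [← hcuv] at hcz
      revert hcz
      cases c u <;> decide
  have hnb : ∀ y z, H.Adj x y → H.Adj x z → c y = c z := by
    intro y z hy hz
    obtain ⟨p, hp⟩ := havoid y hy
    obtain ⟨q, hq⟩ := havoid z hz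
    have h1 : x ∉ (p.reverse.append q).support := by
      rw [SimpleGraph.Walk.mem_support_append_iff, SimpleGraph.Walk.support_reverse, List.mem_reverse]
      tauto
    rw [parity hcH (p.reverse.append q) h1]
    by_contra hodd
    rw [Nat.not_even_iff_odd] at hodd
    refine no_odd hR W (SimpleGraph.Walk.cons hy ((p.reverse.append q).concat hz.symm)) ?_
    rw [SimpleGraph.Walk.length_cons, SimpleGraph.Walk.length_concat]
    obtain ⟨k, hk⟩ := hodd
    exact ⟨k + 1, by omega⟩
  -- the colour of `x`
  obtain ⟨b, hb⟩ : ∃ b : Bool, ∀ y, H.Adj x y → c y ≠ b := by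
    by_cases h : ∃ y, H.Adj x y
    · obtain ⟨y, hy⟩ := h
      refine ⟨!(c y), fun z hz => ?_⟩
      rw [hnb z y hz hy]
      cases c y <;> simp
    · exact ⟨true, fun y hy => absurd ⟨y, hy⟩ h⟩
  refine ⟨fun v => if v = x then b else c v, ?_⟩
  rintro i ⟨u, hu, v, hv, huv, hiu, hiv⟩ b'
  by_cases h2 : ∃ u ∈ W.erase x, ∃ v ∈ W.erase x, u ≠ v ∧ R i u ∧ R i v
  · obtain ⟨z, hz, hRz, hcz⟩ := hc i h2 b'
    refine ⟨z, Finset.mem_of_mem_erase hz, hRz, ?_⟩
    show (if z = x then b else c z) = b'
    rw [if_neg (Finset.ne_of_mem_erase hz), hcz]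
  · -- the trace is `{x, y}`
    obtain ⟨y, hyW, hyx, hRx, hRy⟩ : ∃ y ∈ W, y ≠ x ∧ R i x ∧ R i y := by
      by_cases hux : u = x
      · subst hux
        exact ⟨v, hv, huv.symm, hiu, hiv⟩
      · by_cases hvx : v = x
        · subst hvx
          exact ⟨u, hu, huv, hiv, hiu⟩
        · exact absurd ⟨u, Finset.mem_erase.2 ⟨hux, hu⟩, v, Finset.mem_erase.2 ⟨hvx, hv⟩, huv, hiu, hiv⟩ h2
    have hadj : H.Adj x y := by
      refine ⟨hyx.symm, hxW, hyW, i, fun z hz => ⟨fun hRz => ?_, ?_⟩⟩
      · by_contra hcon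
        rw [not_or] at hcon
        exact h2 ⟨z, Finset.mem_erase.2 ⟨hcon.1, hz⟩, y, Finset.mem_erase.2 ⟨hyx, hyW⟩, hcon.2, hRz, hRy⟩
      · rintro (rfl | rfl)
        · exact hRx
        · exact hRy
    have hby := hb y hadj
    by_cases hbb : b' = b
    · refine ⟨x, hxW, hRx, ?_⟩
      show (if x = x then b else c x) = b'
      rw [if_pos rfl, hbb]
    · refine ⟨y, hyW, hRy, ?_⟩
      show (if y = x then b else c y) = b'
      rw [if_neg hyx]
      cases h3 : c y <;> cases b' <;> cases b <;> simp_all

end Pool.Agent.P8H33.DS
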