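import Pool.Agent.Y600.DC.Stm

/-!
# Good colourings of balanced hypergraphs (Berge)
-/

set_option autoImplicit false

namespace Pool.Agent.P8H33.DS

open Pool.Agent.Y600.DC

open Classical in
/-- the colours of an edge -/
noncomputable def cols {I V : Type} (R : I → V → Prop) {m : ℕ} (c : V → Fin m) (i : I) :
    Finset (Fin m) := Finset.univ.filter (fun b => ∃ x, R i x ∧ c x = b)

theorem mem_cols {I V : Type} {R : I → V → Prop} {m : ℕ} {c : V → Fin m} {i : I} {b : Fin m} :
    b ∈ cols R c i ↔ ∃ x, R i x ∧ c x = b := by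
  classical
  simp [cols]

theorem good : S_BICOL → S_GOOD := by
  classical
  intro hbi I V _ _ R hR m hm hcard
  haveI := Fintype.ofFinite I
  haveI := Fintype.ofFinite V
  haveI : Nonempty (Fin m) := ⟨⟨0, hm⟩⟩
  obtain ⟨c, hc⟩ := Finite.exists_max (fun c : V → Fin m => ∑ i, (cols R c i).card)
  refine ⟨c, ?_⟩
  by_contra hcon
  push Not at hcon
  obtain ⟨i, b, hib⟩ := hcon
  -- a colour that occurs twice
  obtain ⟨x, hx, y, hy, hxy, hcxy⟩ : ∃ x, R i x ∧ ∃ y, R i y ∧ x ≠ y ∧ c x = c y := by
    have h1 : (Finset.univ.erase b).card < (Finset.univ.filter (fun x => R i x)).card := by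
      rw [Finset.card_erase_of_mem (Finset.mem_univ b), Finset.card_univ, Fintype.card_fin]
      have := hcard i
      rw [Set.ncard_eq_toFinset_card'] at this
      have h2 : {x | R i x}.toFinset = Finset.univ.filter (fun x => R i x) := by
        ext z
        simp
      rw [h2] at this
      omega
    obtain ⟨x, hx, y, hy, hxy, he⟩ := Finset.exists_ne_map_eq_of_card_lt_of_maps_to h1
      (f := c) (fun z hz => by
        have hz' : R i z := by simpa using hz
        simpa using hib z hz')
    exact ⟨x, by simpa using hx, y, by simpa using hy, hxy, he⟩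
  have hab : c x ≠ b := hib x hx
  set a := c x with ha
  obtain ⟨d, hd⟩ := hbi I V R hR (Finset.univ.filter (fun z => c z = a ∨ c z = b))
  set c' : V → Fin m := fun z => if c z = a ∨ c z = b then (if d z then a else b) else c z with hc'
  have hW : ∀ z, c z = a ∨ c z = b → c' z = if d z then a else b := fun z hz => by
    simp only [hc', if_pos hz]
  have hW' : ∀ z, ¬ (c z = a ∨ c z = b) → c' z = c z := fun z hz => by
    simp only [hc', if_neg hz]
  set T : Finset (Fin m) := {a, b} with hT
  have hTc : T.card = 2 := Finset.card_pair hab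
  have h1 : ∀ j, cols R c' j \ T = cols R c j \ T := by
    intro j
    ext e
    simp only [Finset.mem_sdiff, mem_cols]
    refine and_congr_left fun he => ⟨?_, ?_⟩
    · rintro ⟨z, hz, hze⟩
      refine ⟨z, hz, ?_⟩
      by_cases h : c z = a ∨ c z = b
      · exfalso
        rw [hW z h] at hze
        apply he
        rw [hT, ← hze]
        split_ifs <;> simp
      · rw [← hW' z h, hze]
    · rintro ⟨z, hz, hze⟩
      refine ⟨z, hz, ?_⟩
      have h : ¬ (c z = a ∨ c z = b) := by
        intro h
        apply he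
        rw [hT, ← hze]
        rcases h with h | h <;> simp [h]
      rw [hW' z h, hze]
  have h2 : ∀ j, (∃ u, ∃ v, u ≠ v ∧ R j u ∧ R j v ∧ (c u = a ∨ c u = b) ∧ (c v = a ∨ c v = b)) →
      cols R c' j ∩ T = T := by
    rintro j ⟨u, v, huv, hu, hv, hcu, hcv⟩
    have hmem : ∀ z, (z ∈ Finset.univ.filter (fun z => c z = a ∨ c z = b)) ↔ (c z = a ∨ c z = b) :=
      fun z => by simp
    have hb' := hd j ⟨u, (hmem u).2 hcu, v, (hmem v).2 hcv, huv, hu, hv⟩
    rw [Finset.inter_eq_right]
    intro e he
    rw [hT, Finset.mem_insert, Finset.mem_singleton] at he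
    rw [mem_cols]
    rcases he with rfl | rfl
    · obtain ⟨z, hz, hRz, hdz⟩ := hb' true
      exact ⟨z, hRz, by rw [hW z ((hmem z).1 hz), hdz]; simp⟩
    · obtain ⟨z, hz, hRz, hdz⟩ := hb' false
      exact ⟨z, hRz, by rw [hW z ((hmem z).1 hz), hdz]; simp⟩
  have h3 : ∀ j, (cols R c j ∩ T).card ≤ (cols R c' j ∩ T).card := by
    intro j
    by_cases h : ∃ u, ∃ v, u ≠ v ∧ R j u ∧ R j v ∧ (c u = a ∨ c u = b) ∧ (c v = a ∨ c v = b)
    · rw [h2 j h]
      exact Finset.card_le_card Finset.inter_subset_right
    · rcases (cols R c j ∩ T).eq_empty_or_nonempty with h0 | ⟨e, he⟩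
      · rw [h0]
        simp
      · rw [Finset.mem_inter, mem_cols] at he
        obtain ⟨⟨u, hu, hue⟩, heT⟩ := he
        have hcu : c u = a ∨ c u = b := by
          rw [hue]
          simpa [hT] using heT
        have hle : (cols R c j ∩ T).card ≤ 1 := by
          rw [Finset.card_le_one]
          intro e1 he1 e2 he2
          rw [Finset.mem_inter, mem_cols] at he1 he2
          obtain ⟨⟨u1, hu1, hue1⟩, heT1⟩ := he1
          obtain ⟨⟨u2, hu2, hue2⟩, heT2⟩ := he2
          by_contra hne
          refine h ⟨u1, u2, ?_, hu1, hu2, ?_, ?_⟩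
          · rintro rfl
            exact hne (hue1.symm.trans hue2)
          · rw [hue1]
            simpa [hT] using heT1
          · rw [hue2]
            simpa [hT] using heT2
        have hpos : 0 < (cols R c' j ∩ T).card := by
          rw [Finset.card_pos]
          refine ⟨c' u, Finset.mem_inter.2 ⟨mem_cols.2 ⟨u, hu, rfl⟩, ?_⟩⟩
          rw [hW u hcu, hT]
          split_ifs <;> simp
        omega
  have h4 : (cols R c i ∩ T).card < (cols R c' i ∩ T).card := by
    rw [h2 i ⟨x, y, hxy, hx, hy, Or.inl rfl, Or.inl hcxy.symm⟩, hTc]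
    refine lt_of_le_of_lt (Finset.card_le_card (?_ : cols R c i ∩ T ⊆ {a})) (by simp)
    intro e he
    rw [Finset.mem_inter, mem_cols, hT, Finset.mem_insert, Finset.mem_singleton] at he
    obtain ⟨⟨z, hz, hze⟩, rfl | rfl⟩ := he
    · simp
    · exact absurd hze (hib z hz)
  have h5 : ∑ j, (cols R c j).card < ∑ j, (cols R c' j).card := by
    refine Finset.sum_lt_sum (fun j _ => ?_) ⟨i, Finset.mem_univ i, ?_⟩
    · rw [← Finset.card_sdiff_add_card_inter (cols R c j) T,
        ← Finset.card_sdiff_add_card_inter (cols R c' j) T, h1 j]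
      exact Nat.add_le_add_left (h3 j) _
    · rw [← Finset.card_sdiff_add_card_inter (cols R c i) T,
        ← Finset.card_sdiff_add_card_inter (cols R c' i) T, h1 i]
      exact Nat.add_lt_add_left h4 _
  exact absurd (hc c') (not_le.2 h5)

end Pool.Agent.P8H33.DS
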