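import Pool.Agent.Y600.DC.Stm

/-!
# Rounding for balanced hypergraphs
-/

set_option autoImplicit false

namespace Pool.Agent.P8H33.DS

open Pool.Agent.Y600.DC

theorem zmod_pair {m : ℕ} (hm : Odd m) (h3 : 3 ≤ m) {j k : ZMod m}
    (h : ∀ i : ZMod m, (j = i ∨ j = i + 1) ↔ (k = i ∨ k = i + 1)) : j = k := by
  haveI : Fact (1 < m) := ⟨by omega⟩
  have h1 : (1 : ZMod m) ≠ 0 := one_ne_zero
  have h2 : (2 : ZMod m) ≠ 0 := by
    intro h0
    have : ((2 : ℕ) : ZMod m) = 0 := by exact_mod_cast h0
    rw [ZMod.natCast_eq_zero_iff] at this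
    have := Nat.le_of_dvd (by omega) this
    omega
  rcases (h j).1 (Or.inl rfl) with h4 | h4
  · exact h4.symm
  · rcases (h (j - 1)).1 (Or.inr (by ring)) with h5 | h5
    · exfalso
      apply h2
      have : j + 1 = j - 1 := h4.symm.trans h5
      have h6 : (2 : ZMod m) = (j + 1) - (j - 1) := by ring
      rw [h6, this, sub_self]
    · rw [h5]
      ring

theorem balanced_copies {I V : Type} {R : I → V → Prop} (hR : RelBalanced R) (a : V → ℕ) :
    RelBalanced (fun (i : I) (x : Σ x : V, Fin (a x)) => R i x.1) := by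
  intro m hm h3 e x hx h
  refine hR m hm h3 e (fun j => (x j).1) ?_ h
  intro j k hjk
  refine zmod_pair hm h3 fun i => ?_
  rw [← h i j, ← h i k]
  have : (x j).1 = (x k).1 := hjk
  show R (e i) (x j).1 ↔ R (e i) (x k).1
  rw [this]

theorem round : S_GOOD → S_ROUND := by
  classical
  intro hg I V _ _ R hR a m hm hsum
  have hcard : ∀ i, m ≤ {x : Σ x : V, Fin (a x) | R i x.1}.ncard := by
    intro i
    refine (hsum i).trans (le_of_eq ?_)
    have h1 : {x : Σ x : V, Fin (a x) | R i x.1} =
        ((Finset.univ.filter (fun x => R i x)).sigma (fun x => (Finset.univ : Finset (Fin (a x)))) :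
          Finset (Σ x : V, Fin (a x))) := by
      ext z
      simp
    rw [h1, Set.ncard_coe_finset, Finset.card_sigma]
    refine Finset.sum_congr ?_ fun x _ => by simp
    ext x
    simp
  obtain ⟨c, hc⟩ := hg I (Σ x : V, Fin (a x)) _ (balanced_copies hR a) m hm hcard
  set D : Fin m → Finset V := fun b => (Finset.univ.filter (fun z => c z = b)).image Sigma.fst with hD
  have h1 : ∑ b, (D b).card ≤ ∑ x, a x := by
    calc ∑ b, (D b).card ≤ ∑ b, (Finset.univ.filter (fun z => c z = b)).card :=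
          Finset.sum_le_sum fun b _ => Finset.card_image_le
      _ = (Finset.univ : Finset (Σ x : V, Fin (a x))).card :=
          (Finset.card_eq_sum_card_fiberwise (fun z _ => Finset.mem_univ (c z))).symm
      _ = ∑ x, a x := by
          rw [Finset.card_univ, Fintype.card_sigma]
          simp
  obtain ⟨b, hb⟩ : ∃ b, m * (D b).card ≤ ∑ x, a x := by
    by_contra hcon
    push Not at hcon
    haveI : Nonempty (Fin m) := ⟨⟨0, hm⟩⟩
    have h2 : ∑ _b : Fin m, ∑ x, a x < ∑ b, m * (D b).card :=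
      Finset.sum_lt_sum_of_nonempty Finset.univ_nonempty fun b _ => hcon b
    rw [← Finset.mul_sum, Finset.sum_const, Finset.card_univ, Fintype.card_fin, smul_eq_mul] at h2
    exact absurd (Nat.mul_le_mul_left m h1) (not_le.2 h2)
  refine ⟨D b, fun i => ?_, hb⟩
  obtain ⟨z, hz, hzb⟩ := hc i b
  exact ⟨z.1, Finset.mem_image.2 ⟨z, by simp [hzb], rfl⟩, hz⟩

end Pool.Agent.P8H33.DS
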